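import Pool.Agent.W426.LE.SG

/-!
Project LE (helper426), part KK: the signed number of the complete graph on 2p points is not zero:
assembly (helper493).
-/

set_option autoImplicit false
set_option linter.all false

namespace Pool.Agent.W493.LE.KK

open Finset Pool.Agent.W426.LE
open scoped Classical

lemma half_card {p : ℕ} [Fact p.Prime] {I : Type} [Fintype I] {σ : I → ZMod p}
    (hσ : Half {z | z ≠ 0} σ) : 2 * Fintype.card I + 1 = p := by
  have h1 : Fintype.card (I × Bool) = Fintype.card {z : ZMod p // z ≠ 0} := by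
    refine Fintype.card_congr ?_
    have e := hσ.equiv
    exact (Equiv.Set.univ _).symm.trans e
  rw [Fintype.card_prod, Fintype.card_bool, Fintype.card_subtype_compl, ZMod.card] at h1
  have h2 : Fintype.card {x : ZMod p // x = 0} = 1 := Fintype.card_subtype_eq (0 : ZMod p)
  rw [h2] at h1
  have := (Fact.out : p.Prime).pos
  omega

lemma half_ne {p : ℕ} {I : Type} {σ : I → ZMod p}
    (hσ : Half {z | z ≠ 0} σ) (i : I) : σ i ≠ 0 := by
  have := hσ.mapsTo (Set.mem_univ (i, true))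
  simpa using this

theorem main (hA : S_YA) (hB : S_YB) (hT : S_TW) (hL : S_LINK) (hM : S_KM) : S_KK := by
  intro p hp hp2 I F _ _ σ hσ ρ hNN
  have hpp : p.Prime := hp.out
  have hI := half_card hσ
  have hF : Fintype.card F + 1 = p := by
    have h1 := Fintype.card_congr ρ
    simp only [DD, CC, Fintype.card_sum, Fintype.card_prod, Fintype.card_bool, ZMod.card] at h1
    omega
  have hodd : Odd p := hpp.odd_of_ne_two hp2
  -- the reference bijections
  have ρ' : Option (I × Bool) ≃ ZMod p := Fintype.equivOfCardEq (by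
    rw [Fintype.card_option, Fintype.card_prod, Fintype.card_bool, ZMod.card]
    omega)
  have ρ'' : ZMod p × Bool ≃ Option (CC p F) := Fintype.equivOfCardEq (by
    rw [Fintype.card_option, Fintype.card_prod, Fintype.card_bool, ZMod.card, Fintype.card_sum,
      ZMod.card]
    omega)
  obtain ⟨η, hη, hNM, hFIX⟩ := hL p hp2 I F σ hσ ρ ρ''
  have hKM := hM p hp2 F hF ρ''
  rw [hNM, hNN, mul_zero, zero_sub, dvd_neg] at hKM
  set Y : ZMod p → ℤ := fun j => YY ρ' (fun i => j * σ i) with hY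
  set y : ZMod p := ((YY ρ' (fun _ => 1) : ℤ) : ZMod p) with hy
  have hy0 : y ≠ 0 := hB p hp2 I ρ'
  set P : ZMod p := ∏ i, σ i with hP
  have hP0 : P ≠ 0 := Finset.prod_ne_zero_iff.2 fun i _ => half_ne hσ i
  have hYj : ∀ j : ZMod p, j ≠ 0 → ((Y j * Y j : ℤ) : ZMod p) = y ^ 2 * P ^ 2 := by
    intro j hj
    have h1 : ((Y j : ℤ) : ZMod p) = y * (j ^ Fintype.card I * P) := by
      rw [hY]
      simp only
      rw [hA p hp2 I ρ' (fun i => j * σ i), Finset.prod_mul_distrib, Finset.prod_const,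
        Finset.card_univ]
    rw [Int.cast_mul, h1]
    have h2 : j ^ (2 * Fintype.card I) = 1 := by
      have : 2 * Fintype.card I = p - 1 := by omega
      rw [this]
      exact ZMod.pow_card_sub_one_eq_one hj
    calc y * (j ^ Fintype.card I * P) * (y * (j ^ Fintype.card I * P)) =
        j ^ (2 * Fintype.card I) * (y ^ 2 * P ^ 2) := by ring
      _ = y ^ 2 * P ^ 2 := by rw [h2, one_mul]
  have hZZ : ∀ j : ZMod p, j ≠ 0 →
      ZZ ρ (fun _ => σ) (fun t : ZMod p => t) j = p * (p.factorial : ℤ) * (Y j * Y j) := by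
    intro j hj
    have h1 := hT p p hp2 hodd (dvd_refl p) I (ZMod p) F ρ ρ' (fun _ => σ) (fun t => t) j hj
    have h2 : ZMod.castHom (dvd_refl p) (ZMod p) = RingHom.id (ZMod p) := RingHom.ext_zmod _ _
    rw [h2] at h1
    simp only [RingHom.id_apply, ZMod.card] at h1
    exact h1
  have hsum : (p - 1 : ℤ) * ∑ j ∈ univ.filter (fun j : ZMod p => j ≠ 0), FIX ρ'' 1 1 j =
      (p : ℤ) ^ 2 * ((p - 1 : ℤ) * (η * (((p - 1).factorial : ℕ) : ℤ) *
        ∑ j ∈ univ.filter (fun j : ZMod p => j ≠ 0), Y j * Y j)) := by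
    have h1 : ∑ j ∈ univ.filter (fun j : ZMod p => j ≠ 0), FIX ρ'' 1 1 j =
        (p : ℤ) ^ 2 * (η * (((p - 1).factorial : ℕ) : ℤ)) *
          ∑ j ∈ univ.filter (fun j : ZMod p => j ≠ 0), Y j * Y j := by
      rw [Finset.mul_sum]
      refine Finset.sum_congr rfl fun j hj => ?_
      rw [Finset.mem_filter] at hj
      rw [hFIX, hZZ j hj.2]
      have h3 : (p.factorial : ℤ) = p * (((p - 1).factorial : ℕ) : ℤ) := by
        have := Nat.mul_factorial_pred hpp.ne_zero
        rw [← this]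
        push_cast
        ring
      rw [h3]
      ring
    rw [h1]
    ring
  rw [hsum, pow_succ] at hKM
  have hp0 : (p : ℤ) ^ 2 ≠ 0 := pow_ne_zero _ (by exact_mod_cast hpp.ne_zero)
  have hdvd := (mul_dvd_mul_iff_left hp0).1 hKM
  rw [← ZMod.intCast_zmod_eq_zero_iff_dvd] at hdvd
  have hcast : ((∑ j ∈ univ.filter (fun j : ZMod p => j ≠ 0), Y j * Y j : ℤ) : ZMod p) =
      -(y ^ 2 * P ^ 2) := by
    rw [Int.cast_sum]
    have h1 : ∑ j ∈ univ.filter (fun j : ZMod p => j ≠ 0), ((Y j * Y j : ℤ) : ZMod p) =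
        ∑ j ∈ univ.filter (fun j : ZMod p => j ≠ 0), y ^ 2 * P ^ 2 :=
      Finset.sum_congr rfl fun j hj => hYj j (Finset.mem_filter.1 hj).2
    rw [h1, Finset.sum_const, Finset.filter_ne', Finset.card_erase_of_mem (Finset.mem_univ _),
      Finset.card_univ, ZMod.card, nsmul_eq_mul, Nat.cast_sub hpp.one_le, Nat.cast_one,
      CharP.cast_eq_zero, zero_sub, neg_one_mul]
  have hη0 : ((η : ℤ) : ZMod p) ≠ 0 := by
    intro h
    have h1 : ((η * η : ℤ) : ZMod p) = 1 := by rw [hη]; simp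
    rw [Int.cast_mul, h, mul_zero] at h1
    exact zero_ne_one h1
  have hW : (((p - 1).factorial : ℕ) : ZMod p) = -1 := ZMod.wilsons_lemma p
  rw [Int.cast_mul, Int.cast_mul, Int.cast_mul, hcast, Int.cast_natCast, hW, Int.cast_sub,
    Int.cast_natCast, Int.cast_one, CharP.cast_eq_zero, zero_sub] at hdvd
  have : (y ^ 2 * P ^ 2) * ((η : ℤ) : ZMod p) = 0 := by
    linear_combination -hdvd
  have h1 : y ^ 2 * P ^ 2 ≠ 0 := mul_ne_zero (pow_ne_zero _ hy0) (pow_ne_zero _ hP0)
  exact (mul_ne_zero h1 hη0) this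

end Pool.Agent.W493.LE.KK
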