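import Pool.Agent.W426.LE.SG

/-!
Project LE (helper426), parts GB and GK: the final graph theorems (helper493).
-/

set_option autoImplicit false
set_option linter.all false

namespace Pool.Agent.W493.LE.GK

open Finset Pool.Agent.W426.LE
open scoped Classical

theorem gb (hG : S_GR) (hB : S_BI) (hH : S_HALF) (hE : S_EDGE) : S_GB := by
  intro p k hp hp2 hk S R T hS hR hSc hRc hS0 hR0 hT hTp c
  have hpp : p.Prime := hp.out
  have hn0 : NeZero (p ^ k) := ⟨pow_ne_zero _ hpp.ne_zero⟩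
  have hodd : Odd p := hpp.odd_of_ne_two hp2
  have hoddn : Odd (p ^ k) := hodd.pow
  obtain ⟨m, hm⟩ := hodd
  have h0S : (0 : ZMod (p ^ k)) ∉ S := fun h => hS0 0 h (map_zero _)
  have h0R : (0 : ZMod (p ^ k)) ∉ R := fun h => hR0 0 h (map_zero _)
  obtain ⟨σ0, hσ0⟩ := hH (p ^ k) m hoddn S hS h0S (by omega)
  obtain ⟨σ1, hσ1⟩ := hH (p ^ k) m hoddn R hR h0R (by omega)
  set σ : Bool → Fin m → ZMod (p ^ k) := fun b => cond b σ1 σ0 with hσ
  obtain ⟨ψ, h1, h2, h3⟩ := hE (p ^ k) m hoddn S R T σ h0S h0R hσ0 hσ1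
  have hTc : 0 < T.card := hT.card_pos
  have ρ : DD (Fin m) T ≃ CC p (Fin (T.card - 1)) := Fintype.equivOfCardEq (by
    simp only [Fintype.card_sum, Fintype.card_prod, Fintype.card_bool, Fintype.card_fin,
      ZMod.card, Fintype.card_coe]
    omega)
  have ρ' : Option (Fin m × Bool) ≃ ZMod p := Fintype.equivOfCardEq (by
    simp only [Fintype.card_option, Fintype.card_prod, Fintype.card_bool, Fintype.card_fin,
      ZMod.card]
    omega)
  have hne : ∀ b i, ZMod.castHom (dvd_pow_self p hk) (ZMod p) (σ b i) ≠ 0 := by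
    intro b i
    cases b
    · have h4 := hσ0.mapsTo (Set.mem_univ (i, true))
      simp only [if_true] at h4
      exact hS0 _ h4
    · have h4 := hσ1.mapsTo (Set.mem_univ (i, true))
      simp only [if_true] at h4
      exact hR0 _ h4
  have hNN := hB p k hp2 hk (Fin m) T (Fin (T.card - 1)) ρ ρ' σ (fun t : T => (t : ZMod (p ^ k)))
    hne (by rw [Fintype.card_coe]; exact hTp)
  exact hG (ZMod (p ^ k) × Bool) (EE (Fin m) T (p ^ k)) (DD (Fin m) T)
    (CC p (Fin (T.card - 1))) ρ _ (BC (p ^ k) S R T) ψ h1 h2 h3 hNN c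

lemma lecc_of_iso {V W : Type} {G : SimpleGraph V} {G' : SimpleGraph W}
    (φ : G ≃g G') {k : ℕ} (h : LECCk G k) : LECCk G' k := by
  let ψ : G.lineGraph ≃g G'.lineGraph := φ.lineGraph
  unfold LECCk at *
  have h1 : G'.lineGraph.Colorable k ↔ G.lineGraph.Colorable k :=
    ⟨fun hc => hc.of_hom ψ.toHom, fun hc => hc.of_hom ψ.symm.toHom⟩
  rw [h1, h]
  constructor
  · intro H L hL
    obtain ⟨f, hf1, hf2⟩ := H (fun e => L (ψ e)) (fun e => hL _)
    refine ⟨fun e => f (ψ.symm e), fun e => ?_, fun e e' hee => ?_⟩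
    · have := hf1 (ψ.symm e)
      simpa using this
    · exact hf2 _ _ (ψ.symm.map_rel_iff.2 hee)
  · intro H L hL
    obtain ⟨f, hf1, hf2⟩ := H (fun e => L (ψ.symm e)) (fun e => hL _)
    refine ⟨fun e => f (ψ e), fun e => ?_, fun e e' hee => ?_⟩
    · have := hf1 (ψ e)
      simpa using this
    · exact hf2 _ _ (ψ.map_rel_iff.2 hee)

/-- change of the type of cross classes -/
def dE {I T T' : Type} (τ : T ≃ T') : DD I T ≃ DD I T' := Equiv.sumCongr (Equiv.refl _) τ

/-- change of the type of cross classes -/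
def eE {I T T' : Type} (n : ℕ) (τ : T ≃ T') : EE I T n ≃ EE I T' n :=
  Equiv.sumCongr (Equiv.refl _) (Equiv.prodCongr τ (Equiv.refl _))

lemma inc_change {I T T' : Type} {n : ℕ} (τ : T ≃ T') (s : Bool → I → ZMod n)
    (v : T' → ZMod n) (u : ZMod n × Bool) (i : DD I T) :
    eE n τ (inc s (fun t => v (τ t)) u i) = inc s v u (dE τ i) := by
  obtain ⟨y, b⟩ := u
  rcases i with ⟨i, b'⟩ | t
  · cases b <;> cases b' <;> rfl
  · cases b <;> rfl

theorem gk (hG : S_GR) (hK : S_KK) (hH : S_HALF) (hE : S_EDGE) : S_GK := by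
  intro p hpp hp2 V _ hV c
  haveI hp : Fact p.Prime := ⟨hpp⟩
  haveI hn0 : NeZero p := ⟨hpp.ne_zero⟩
  have hodd : Odd p := hpp.odd_of_ne_two hp2
  have hodd' := hodd
  obtain ⟨m, hm⟩ := hodd'
  set S : Finset (ZMod p) := univ.erase 0 with hS
  have hSc : S.card = 2 * m := by
    rw [hS, Finset.card_erase_of_mem (Finset.mem_univ _), Finset.card_univ, ZMod.card]
    omega
  have h0S : (0 : ZMod p) ∉ S := by simp [hS]
  obtain ⟨σ, hσ⟩ := hH p m hodd S (by intro x hx; simpa [hS] using hx) h0S hSc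
  have hσ' : Half {z : ZMod p | z ≠ 0} σ := by
    have : ((S : Finset (ZMod p)) : Set (ZMod p)) = {z : ZMod p | z ≠ 0} := by
      ext z
      simp [hS]
    rwa [this] at hσ
  obtain ⟨ψ, h1, h2, h3⟩ := hE p m hodd S S (univ : Finset (ZMod p)) (fun _ => σ) h0S h0S hσ hσ
  -- the type of the cross classes
  let τ : ZMod p ≃ (univ : Finset (ZMod p)) :=
    (Equiv.subtypeUnivEquiv fun x => Finset.mem_univ x).symm
  have hτ : ∀ t : ZMod p, ((τ t : (univ : Finset (ZMod p))) : ZMod p) = t := fun t => rfl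
  have hinc : ∀ (u : ZMod p × Bool) (i : DD (Fin m) (ZMod p)),
      eE p τ (inc (fun _ : Bool => σ) (fun t : ZMod p => t) u i) =
        inc (fun _ : Bool => σ) (fun t : (univ : Finset (ZMod p)) => (t : ZMod p)) u (dE τ i) :=
    fun u i => inc_change τ (fun _ : Bool => σ)
      (fun t : (univ : Finset (ZMod p)) => (t : ZMod p)) u i
  have ρ : DD (Fin m) (ZMod p) ≃ CC p (Fin (p - 1)) := Fintype.equivOfCardEq (by
    simp only [Fintype.card_sum, Fintype.card_prod, Fintype.card_bool, Fintype.card_fin,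
      ZMod.card]
    omega)
  have hNN := hK p hp2 (Fin m) (Fin (p - 1)) σ hσ' ρ
  have hL := hG (ZMod p × Bool) (EE (Fin m) (ZMod p) p) (DD (Fin m) (ZMod p))
    (CC p (Fin (p - 1))) ρ (inc (fun _ => σ) (fun t : ZMod p => t))
    (BC p S S (univ : Finset (ZMod p))) ((eE p τ).trans ψ) ?_ ?_ ?_ hNN c
  · have hBC : BC p S S (univ : Finset (ZMod p)) = ⊤ := by
      ext u v
      unfold BC
      rw [SimpleGraph.fromRel_adj, SimpleGraph.top_adj]
      constructor
      · exact fun h => h.1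
      · intro h
        refine ⟨h, ?_⟩
        obtain ⟨x, b⟩ := u
        obtain ⟨y, b'⟩ := v
        have key : b = b' → y - x ∈ S := by
          intro hb
          subst hb
          rw [hS, Finset.mem_erase]
          refine ⟨?_, Finset.mem_univ _⟩
          rw [sub_ne_zero]
          rintro rfl
          exact h rfl
        cases b <;> cases b'
        · exact Or.inl (Or.inl ⟨rfl, rfl, key rfl⟩)
        · exact Or.inl (Or.inr (Or.inr ⟨rfl, rfl, Finset.mem_univ _⟩))
        · exact Or.inr (Or.inr (Or.inr ⟨rfl, rfl, Finset.mem_univ _⟩))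
        · exact Or.inl (Or.inr (Or.inl ⟨rfl, rfl, key rfl⟩))
    rw [hBC] at hL
    have e : ZMod p × Bool ≃ V := Fintype.equivOfCardEq (by
      rw [Fintype.card_prod, ZMod.card, Fintype.card_bool, hV, mul_comm])
    exact lecc_of_iso (SimpleGraph.Iso.completeGraph e) hL
  · intro v i
    rw [Equiv.trans_apply, hinc]
    exact h1 v _
  · intro v e he
    rw [Equiv.trans_apply] at he
    obtain ⟨i, hi⟩ := h2 v _ he
    refine ⟨(dE τ).symm i, ?_⟩
    apply (eE p τ).injective
    rw [hinc, Equiv.apply_symm_apply, hi]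
  · intro v i j hij
    have h4 := congrArg (eE p τ) hij
    rw [hinc, hinc] at h4
    exact (dE τ).injective (h3 v h4)

end Pool.Agent.W493.LE.GK
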